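import Pool.Agent.helper80.SV.Spec

/-!
# SMP: general simple points
-/

set_option autoImplicit false

namespace Pool.Agent.SV

open MvPolynomial Module

theorem SMP : SMP_stmt := by
  intro ι _ _ A Q _ hQ u
  induction u with
  | zero =>
    refine ⟨Fin.elim0, ?_⟩
    rw [Nat.sub_zero]
    exact Submodule.finrank_mono inf_le_left
  | succ u ih =>
    obtain ⟨q, hq⟩ := ih
    set Q' : Submodule ℂ (MvPolynomial ι ℂ) := Q ⊓ ⨅ j, LinearMap.ker (evL (cut A (q j))) with hQ'
    have hfin : Module.Finite ℂ Q' := Submodule.finiteDimensional_inf_left _ _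
    have hle : ∀ w : ι → ℂ, (Q ⊓ ⨅ j : Fin (u + 1), LinearMap.ker (evL (cut A
        ((Fin.snoc q w : Fin (u + 1) → ι → ℂ) j)))) ≤ Q' ⊓ LinearMap.ker (evL (cut A w)) := by
      intro w g hg
      rw [Submodule.mem_inf, Submodule.mem_iInf, Fin.forall_fin_succ'] at hg
      simp only [Fin.snoc_castSucc, Fin.snoc_last] at hg
      rw [hQ', Submodule.mem_inf, Submodule.mem_inf, Submodule.mem_iInf]
      exact ⟨⟨hg.1, hg.2.1⟩, hg.2.2⟩
    by_cases h0 : Q' = ⊥
    · refine ⟨Fin.snoc q 0, ?_⟩
      have h1 := (hle 0).trans inf_le_left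
      rw [h0, le_bot_iff] at h1
      rw [h1, finrank_bot]
      exact Nat.zero_le _
    · obtain ⟨g, hg, hg0⟩ := Submodule.exists_mem_ne_zero_of_ne_bot h0
      obtain ⟨w, hw⟩ : ∃ w : ι → ℂ, eval (cut A w) g ≠ 0 := by
        by_contra hc
        push Not at hc
        exact hg0 (hQ g (Submodule.mem_inf.mp hg).1 hc)
      refine ⟨Fin.snoc q w, ?_⟩
      have h1 : Q' ⊓ LinearMap.ker (evL (cut A w)) < Q' := by
        refine lt_of_le_of_ne inf_le_left fun he => ?_
        have h2 : g ∈ Q' ⊓ LinearMap.ker (evL (cut A w)) := by rw [he]; exact hg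
        have h3 := (Submodule.mem_inf.mp h2).2
        rw [LinearMap.mem_ker, evL_apply] at h3
        exact hw h3
      have h2 := Submodule.finrank_lt_finrank_of_lt h1
      have hfin2 : Module.Finite ℂ ↥(Q' ⊓ LinearMap.ker (evL (cut A w))) :=
        Submodule.finiteDimensional_inf_left _ _
      have h3 := Submodule.finrank_mono (hle w)
      omega

end Pool.Agent.SV
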